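import Pool.Agent.Lib_helper25.ET.Base
import Pool.Agent.Lib_helper92.ET.H1

set_option autoImplicit false

namespace Pool.Agent.ET

open MeasureTheory Filter Topology Set
open scoped ContDiff ENNReal

noncomputable section

variable {S : Torus}

/-- a rational angle close to a direction -/
theorem H2_rat (e : ℂ) (he : ‖e‖ = 1) (δ : ℝ) (hδ : 0 < δ) :
    ∃ q : ℚ, ‖Complex.exp ((q : ℝ) * Complex.I) - e‖ < δ := by
  have hc : Continuous (fun x : ℝ => ‖Complex.exp ((x : ℂ) * Complex.I) - e‖) := by fun_prop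
  have ho : IsOpen {x : ℝ | ‖Complex.exp ((x : ℂ) * Complex.I) - e‖ < δ} :=
    isOpen_lt hc continuous_const
  have hn : Set.Nonempty {x : ℝ | ‖Complex.exp ((x : ℂ) * Complex.I) - e‖ < δ} := by
    refine ⟨Complex.arg e, ?_⟩
    have h1 : Complex.exp ((Complex.arg e : ℂ) * Complex.I) = e := by
      have := Complex.norm_mul_exp_arg_mul_I e
      rw [he] at this
      simpa using this
    show ‖Complex.exp ((Complex.arg e : ℂ) * Complex.I) - e‖ < δ
    rw [h1, sub_self, norm_zero]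
    exact hδ
  obtain ⟨q, hq⟩ := (Rat.denseRange_cast (𝕜 := ℝ)).exists_mem_open ho hn
  exact ⟨q, by simpa using hq⟩

/-- the elementary geometry: far out in a thin strip in the direction `e'` close to `e` one is in the
sector -/
theorem H2_geom (z p e e' D : ℂ) (k δ M : ℝ) (he : ‖e‖ = 1) (he' : ‖e'‖ = 1) (hk : 0 < k)
    (hδ : 0 < δ) (hδk : (1 + k) * δ ≤ k / 2) (hc : ‖e' - e‖ < δ)
    (hM : (2 / k) * (1 + ‖z - p‖ + k * ‖z - p‖ + k / 2) ≤ M)
    (h1 : M ≤ (D / e').re) (h2 : |(D / e').im| ≤ 1) : z + D ∈ sector p e k := by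
  have he0 : e ≠ 0 := by
    intro h0
    rw [h0, norm_zero] at he
    exact zero_ne_one he
  have he0' : e' ≠ 0 := by
    intro h0
    rw [h0, norm_zero] at he'
    exact zero_ne_one he'
  set a : ℂ := D / e' with ha
  have hD : D = a * e' := by rw [ha]; field_simp
  set b : ℂ := (z - p) / e + a * ((e' - e) / e) with hb
  have hb1 : ‖(z - p) / e‖ = ‖z - p‖ := by rw [norm_div, he, div_one]
  have hM0 : 0 ≤ M := by
    refine le_trans ?_ hM
    have := norm_nonneg (z - p)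
    positivity
  have ha0 : ‖a‖ ≤ a.re + 1 := by
    refine (Complex.norm_le_abs_re_add_abs_im a).trans ?_
    rw [abs_of_nonneg (hM0.trans h1)]
    linarith
  have hb2 : ‖a * ((e' - e) / e)‖ ≤ (a.re + 1) * δ := by
    have h6 : ‖(e' - e) / e‖ = ‖e' - e‖ := by rw [norm_div, he, div_one]
    rw [norm_mul, h6]
    exact mul_le_mul ha0 hc.le (norm_nonneg _) (by linarith [hM0.trans h1])
  have hb3 : ‖b‖ ≤ ‖z - p‖ + (a.re + 1) * δ := by
    rw [hb]
    refine (norm_add_le _ _).trans ?_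
    rw [hb1]
    linarith
  have hz : z + D = p + ((a + b).re + (a + b).im * Complex.I) * e := by
    rw [Complex.re_add_im, hb, hD]
    field_simp
    ring
  have hre : a.re - ‖b‖ ≤ (a + b).re := by
    rw [Complex.add_re]
    have := (abs_le.1 (Complex.abs_re_le_norm b)).1
    linarith
  have him : |(a + b).im| ≤ 1 + ‖b‖ := by
    rw [Complex.add_im]
    refine (abs_add_le _ _).trans ?_
    have := Complex.abs_im_le_norm b
    linarith
  have hkey : 1 + ‖b‖ ≤ k * (a.re - ‖b‖) := by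
    have hx : (2 / k) * (1 + ‖z - p‖ + k * ‖z - p‖ + k / 2) ≤ a.re := hM.trans h1
    have hx2 : 2 * (1 + ‖z - p‖ + k * ‖z - p‖ + k / 2) ≤ k * a.re := by
      have := mul_le_mul_of_nonneg_left hx hk.le
      refine le_trans (le_of_eq ?_) this
      field_simp
    have hx0 : 0 ≤ a.re := hM0.trans h1
    have h3 : (1 + k) * ‖b‖ ≤ (1 + k) * ‖z - p‖ + (a.re + 1) * (k / 2) := by
      have h4 := mul_le_mul_of_nonneg_left hb3 (by linarith : (0 : ℝ) ≤ 1 + k)
      have h5 := mul_le_mul_of_nonneg_left hδk (by linarith : (0 : ℝ) ≤ a.re + 1)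
      nlinarith
    nlinarith
  have hpos : 0 ≤ (a + b).re := by
    have : 0 ≤ k * (a.re - ‖b‖) := by linarith [norm_nonneg b]
    have := nonneg_of_mul_nonneg_right this hk
    linarith
  refine ⟨(a + b).re, (a + b).im, hpos, ?_, hz⟩
  exact him.trans (hkey.trans (mul_le_mul_of_nonneg_left hre hk.le))

theorem sectors (h : S.Ergodic) (Φ : Flow S) (hp : volume S.Tp ≠ 0) : ∀ᵐ v : ℂ × ℝ,
    ∀ (p e : ℂ) (k : ℝ), ‖e‖ = 1 → 0 < k → ∃ t, (Φ.φ t v).1 ∈ sector p e k := by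
  have hn : ∀ᵐ v : ℂ × ℝ, ∀ x : ℚ × ℕ,
      v ∉ Φ.Wst (Complex.exp ((x.1 : ℝ) * Complex.I)) (x.2 : ℝ) 1 := by
    rw [ae_all_iff]
    intro x
    have h0 := strip_null h Φ hp (Complex.exp ((x.1 : ℝ) * Complex.I))
      (Complex.norm_exp_ofReal_mul_I _) (x.2 : ℝ) 1 one_pos
    exact measure_eq_zero_iff_ae_notMem.1 h0
  filter_upwards [hn] with v hv p e k he hk
  set δ : ℝ := k / (2 * (1 + k)) with hδ
  have hδ0 : 0 < δ := by positivity
  have hδk : (1 + k) * δ ≤ k / 2 := by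
    rw [hδ]
    apply le_of_eq
    field_simp
  obtain ⟨q, hq⟩ := H2_rat e he δ hδ0
  obtain ⟨M, hM⟩ := exists_nat_ge ((2 / k) * (1 + ‖v.1 - p‖ + k * ‖v.1 - p‖ + k / 2))
  have h1 := hv (q, M)
  have h2 : ¬ ∀ t, ¬(((M : ℕ) : ℝ) ≤ (Φ.D t v / Complex.exp ((q : ℝ) * Complex.I)).re ∧
      |(Φ.D t v / Complex.exp ((q : ℝ) * Complex.I)).im| ≤ 1) := h1
  push Not at h2
  obtain ⟨t, ht1, ht2⟩ := h2
  refine ⟨t, ?_⟩
  rw [Φ.pos]
  exact H2_geom v.1 p e _ _ k δ M he (Complex.norm_exp_ofReal_mul_I _) hk hδ0 hδk hq hM ht1 ht2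

end

end Pool.Agent.ET
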